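import Mathlib
import Pool.Agent.H656.Dist.Gen

/-!
# Distributive algebras with more coprime polynomials than residue rings containing roots

Let `A` be an algebra over a commutative ring `k` and let `Φ` be a set of pairwise coprime monic
nonconstant polynomials over `k`. If `A` is right distributive and `Φ` has more than twice as many
elements as there are maximal right ideals `M` of `A` such that `A / M` contains a root of a member of
`Φ`, then for all `a, s` there is `φ ∈ Φ` with `φ(a)` a unit and `a φ(a)⁻¹ s ∈ s A`; so `A` has a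
classical right ring of quotients.
Examples: `Φ` consists of one polynomial without roots in the residue rings; `k` is a field,
`Φ = {X - c}` and `A` has fewer than `|k| / 2` maximal right ideals; `k` is a field, `Φ` is the set of
all monic irreducible polynomials and `A` is semilocal.
-/

set_option autoImplicit false

namespace Pool.Agent.Results.MP_64bfc7_al.FewResidueRoots

open Polynomial MulOpposite Cardinal

/-- the lattice of left ideals is distributive -/
def LeftDistributive (A : Type) [Ring A] : Prop :=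
  ∀ X Y Z : Submodule A A, X ⊓ (Y ⊔ Z) = X ⊓ Y ⊔ X ⊓ Z

/-- the lattice of right ideals is distributive -/
def RightDistributive (A : Type) [Ring A] : Prop :=
  ∀ X Y Z : Submodule Aᵐᵒᵖ A, X ⊓ (Y ⊔ Z) = X ⊓ Y ⊔ X ⊓ Z

/-- neither a left nor a right zero divisor -/
def Regular {A : Type} [Ring A] (s : A) : Prop :=
  (∀ x : A, x * s = 0 → x = 0) ∧ (∀ x : A, s * x = 0 → x = 0)

/-- `A` has a classical right ring of quotients: the right Ore condition for regular elements -/
def RightOre (A : Type) [Ring A] : Prop :=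
  ∀ a s : A, Regular s → ∃ b t : A, Regular t ∧ a * t = s * b

/-- `A` has a classical left ring of quotients: the left Ore condition for regular elements -/
def LeftOre (A : Type) [Ring A] : Prop :=
  ∀ a s : A, Regular s → ∃ b t : A, Regular t ∧ t * a = b * s

variable {A : Type} [Ring A]

/-- elementwise form of right distributivity -/
theorem rd_of_lattice (h : RightDistributive A) :
    ∀ a b : A, ∃ p c d : A, a * p = b * c ∧ b * (1 - p) = a * d := by
  intro a b
  have h1 : a + b ∈ Submodule.span Aᵐᵒᵖ {a + b} ⊓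
      (Submodule.span Aᵐᵒᵖ {a} ⊔ Submodule.span Aᵐᵒᵖ {b}) :=
    ⟨Submodule.mem_span_singleton_self _, Submodule.add_mem _
      (Submodule.mem_sup_left (Submodule.mem_span_singleton_self _))
      (Submodule.mem_sup_right (Submodule.mem_span_singleton_self _))⟩
  rw [h] at h1
  obtain ⟨u, hu, v, hv, huv⟩ := Submodule.mem_sup.1 h1
  obtain ⟨⟨x', hx⟩, ⟨r1, hr⟩⟩ :=
    And.intro (Submodule.mem_span_singleton.1 hu.1) (Submodule.mem_span_singleton.1 hu.2)
  obtain ⟨⟨y', hy⟩, ⟨r2, hr'⟩⟩ :=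
    And.intro (Submodule.mem_span_singleton.1 hv.1) (Submodule.mem_span_singleton.1 hv.2)
  obtain ⟨x, rfl⟩ := op_surjective x'
  obtain ⟨y, rfl⟩ := op_surjective y'
  obtain ⟨r, rfl⟩ := op_surjective r1
  obtain ⟨r', rfl⟩ := op_surjective r2
  rw [op_smul_eq_mul] at hx hr hy hr'
  have h2 : b * x = a * (r - x) := by
    have : (a + b) * x = a * r := hx.trans hr.symm
    rw [add_mul] at this
    rw [mul_sub]
    exact eq_sub_of_add_eq' this
  have h3 : a * y = b * (r' - y) := by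
    have : (a + b) * y = b * r' := hy.trans hr'.symm
    rw [add_mul] at this
    rw [mul_sub]
    exact eq_sub_of_add_eq this
  have h4 : a * (1 - x - y) = - (b * (1 - x - y)) := by
    have h6 : (a + b) * (x + y) = a + b := by rw [mul_add, hx, hy, huv]
    have h5 : (a + b) * (1 - x - y) = 0 := by
      have : (a + b) * (1 - x - y) = (a + b) - (a + b) * (x + y) := by noncomm_ring
      rw [this, h6, sub_self]
    rw [add_mul] at h5
    exact eq_neg_of_add_eq_zero_left h5
  refine ⟨y + (1 - x - y), (r' - y) - (1 - x - y), r - x, ?_, ?_⟩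
  · rw [mul_add, h3, h4, ← sub_eq_add_neg, ← mul_sub]
  · have : 1 - (y + (1 - x - y)) = x := by abel
    rw [this, h2]

theorem ld_op (h : RightDistributive A) : Pool.H656.Dist.LD Aᵐᵒᵖ := by
  intro a b
  obtain ⟨p, c, d, h1, h2⟩ := rd_of_lattice h (unop a) (unop b)
  refine ⟨op p, op c, op d, ?_, ?_⟩
  · apply unop_injective
    simpa using h1
  · apply unop_injective
    simpa using h2

theorem aeval_op' {k : Type} [CommRing k] [Algebra k A] (φ : Polynomial k) (x : A) :
    aeval (op x) φ = op (aeval x φ) := by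
  induction φ using Polynomial.induction_on' with
  | add p q hp hq => rw [map_add, map_add, op_add, hp, hq]
  | monomial n a =>
    rw [aeval_monomial, aeval_monomial, ← Algebra.smul_def, ← Algebra.smul_def, op_smul, op_pow]

/-- right ideals of `A` and left ideals of the opposite ring -/
def opE (A : Type) [Ring A] : A ≃ₗ[Aᵐᵒᵖ] Aᵐᵒᵖ where
  toFun := op
  invFun := unop
  map_add' _ _ := rfl
  map_smul' r x := by
    obtain ⟨r, rfl⟩ := op_surjective r
    apply unop_injective
    simp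
  left_inv _ := rfl
  right_inv _ := rfl

section one

variable {k : Type} [CommRing k] [Algebra k A] (Φ : Set (Polynomial k))

theorem card_op : #{M : Ideal Aᵐᵒᵖ // M.IsMaximal ∧ ∃ φ ∈ Φ, ∃ x : Aᵐᵒᵖ, aeval x φ ∈ M} ≤
    #{M : Submodule Aᵐᵒᵖ A // IsCoatom M ∧ ∃ φ ∈ Φ, ∃ x : A, aeval x φ ∈ M} := by
  let e := (Submodule.orderIsoMapComap (opE A)).symm
  refine Cardinal.mk_le_of_injective (f := fun M => ⟨e M.1, ?_, ?_⟩) ?_
  · exact (e.isCoatom_iff _).2 M.2.1.out
  · obtain ⟨φ, hφ, x, hx⟩ := M.2.2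
    obtain ⟨x, rfl⟩ := op_surjective x
    rw [aeval_op'] at hx
    exact ⟨φ, hφ, x, hx⟩
  · intro M N h
    exact Subtype.ext (e.injective (congrArg Subtype.val h))

theorem left_formula (h : LeftDistributive A) (hΦ : ∀ φ ∈ Φ, φ.Monic ∧ φ.natDegree ≠ 0)
    (hpw : Φ.Pairwise IsCoprime)
    (hcard : 2 * #{M : Submodule A A // IsCoatom M ∧ ∃ φ ∈ Φ, ∃ x : A, aeval x φ ∈ M} < #Φ)
    (a s : A) :
    ∃ φ ∈ Φ, ∃ v c : A, v * aeval a φ = 1 ∧ aeval a φ * v = 1 ∧ s * v * a = c * s := by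
  refine Pool.H656.Dist.gen_left (Pool.H656.Dist.ld_of_lattice h) Φ hΦ hpw (lt_of_le_of_lt ?_ hcard) a s
  gcongr
  exact Cardinal.mk_le_of_injective
    (f := fun M : {M : Ideal A // M.IsMaximal ∧ ∃ φ ∈ Φ, ∃ x : A, aeval x φ ∈ M} =>
      (⟨M.1, M.2.1.out, M.2.2⟩ :
        {M : Submodule A A // IsCoatom M ∧ ∃ φ ∈ Φ, ∃ x : A, aeval x φ ∈ M}))
    (fun M N h => Subtype.ext (Subtype.mk.inj h))

theorem right_formula (h : RightDistributive A) (hΦ : ∀ φ ∈ Φ, φ.Monic ∧ φ.natDegree ≠ 0)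
    (hpw : Φ.Pairwise IsCoprime)
    (hcard : 2 * #{M : Submodule Aᵐᵒᵖ A // IsCoatom M ∧ ∃ φ ∈ Φ, ∃ x : A, aeval x φ ∈ M} < #Φ)
    (a s : A) :
    ∃ φ ∈ Φ, ∃ v c : A, v * aeval a φ = 1 ∧ aeval a φ * v = 1 ∧ a * v * s = s * c := by
  have h0 : 2 * #{M : Ideal Aᵐᵒᵖ // M.IsMaximal ∧ ∃ φ ∈ Φ, ∃ x : Aᵐᵒᵖ, aeval x φ ∈ M} < #Φ := by
    refine lt_of_le_of_lt ?_ hcard
    gcongr
    exact card_op Φ
  obtain ⟨φ, hφ, v, c, h1, h2, h3⟩ :=
    Pool.H656.Dist.gen_left (ld_op h) Φ hΦ hpw h0 (op a) (op s)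
  rw [aeval_op'] at h1 h2
  refine ⟨φ, hφ, unop v, unop c, ?_, ?_, ?_⟩
  · have := congrArg unop h2
    simpa using this
  · have := congrArg unop h1
    simpa using this
  · have := congrArg unop h3
    simpa [mul_assoc] using this

theorem left_ore (h : LeftDistributive A) (hΦ : ∀ φ ∈ Φ, φ.Monic ∧ φ.natDegree ≠ 0)
    (hpw : Φ.Pairwise IsCoprime)
    (hcard : 2 * #{M : Submodule A A // IsCoatom M ∧ ∃ φ ∈ Φ, ∃ x : A, aeval x φ ∈ M} < #Φ) :
    LeftOre A := by
  intro a s hs
  obtain ⟨φ, -, v, c, h1, h2, h3⟩ := left_formula Φ h hΦ hpw hcard a s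
  refine ⟨c, s * v, ⟨fun x hx => ?_, fun x hx => ?_⟩, h3⟩
  · refine hs.1 x ?_
    calc x * s = x * (s * v) * aeval a φ := by rw [mul_assoc, mul_assoc, h1, mul_one]
      _ = 0 := by rw [hx, zero_mul]
  · have h4 : v * x = 0 := hs.2 _ (by rw [← mul_assoc]; exact hx)
    calc x = aeval a φ * (v * x) := by rw [← mul_assoc, h2, one_mul]
      _ = 0 := by rw [h4, mul_zero]

theorem right_ore (h : RightDistributive A) (hΦ : ∀ φ ∈ Φ, φ.Monic ∧ φ.natDegree ≠ 0)
    (hpw : Φ.Pairwise IsCoprime)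
    (hcard : 2 * #{M : Submodule Aᵐᵒᵖ A // IsCoatom M ∧ ∃ φ ∈ Φ, ∃ x : A, aeval x φ ∈ M} < #Φ) :
    RightOre A := by
  intro a s hs
  obtain ⟨φ, -, v, c, h1, h2, h3⟩ := right_formula Φ h hΦ hpw hcard a s
  refine ⟨c, v * s, ⟨fun x hx => ?_, fun x hx => ?_⟩, by rw [← mul_assoc]; exact h3⟩
  · have h4 : x * v = 0 := hs.1 _ (by rw [mul_assoc]; exact hx)
    calc x = x * v * aeval a φ := by rw [mul_assoc, h1, mul_one]
      _ = 0 := by rw [h4, zero_mul]
  · refine hs.2 x ?_
    calc s * x = aeval a φ * (v * s * x) := by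
          rw [← mul_assoc, ← mul_assoc, h2, one_mul]
      _ = 0 := by rw [hx, mul_zero]

end one

/-- Let `A` be an algebra over a commutative ring `k` and `Φ` a set of pairwise coprime monic
nonconstant polynomials over `k`. If `A` is right distributive and `2 m < |Φ|`, where `m` is the number
of maximal right ideals `M` such that `φ(x) ∈ M` for some `φ ∈ Φ` and `x ∈ A` (the residue ring contains
a root of `φ`), then for all `a, s` there is `φ ∈ Φ` such that `φ(a)` is a unit and `a φ(a)⁻¹ s ∈ s A`,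
and `A` has a classical right ring of quotients. The same holds on the left. -/
theorem result : ∀ (k A : Type) [CommRing k] [Ring A] [Algebra k A] (Φ : Set (Polynomial k)),
    (∀ φ ∈ Φ, φ.Monic ∧ φ.natDegree ≠ 0) → Φ.Pairwise IsCoprime →
    (RightDistributive A →
      2 * #{M : Submodule Aᵐᵒᵖ A // IsCoatom M ∧ ∃ φ ∈ Φ, ∃ x : A, aeval x φ ∈ M} < #Φ →
      (∀ a s : A, ∃ φ ∈ Φ, ∃ v c : A, v * aeval a φ = 1 ∧ aeval a φ * v = 1 ∧
        a * v * s = s * c) ∧ RightOre A) ∧
    (LeftDistributive A →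
      2 * #{M : Submodule A A // IsCoatom M ∧ ∃ φ ∈ Φ, ∃ x : A, aeval x φ ∈ M} < #Φ →
      (∀ a s : A, ∃ φ ∈ Φ, ∃ v c : A, v * aeval a φ = 1 ∧ aeval a φ * v = 1 ∧
        s * v * a = c * s) ∧ LeftOre A) := by
  intro k A _ _ _ Φ hΦ hpw
  exact ⟨fun h hc => ⟨right_formula Φ h hΦ hpw hc, right_ore Φ h hΦ hpw hc⟩,
    fun h hc => ⟨left_formula Φ h hΦ hpw hc, left_ore Φ h hΦ hpw hc⟩⟩

end Pool.Agent.Results.MP_64bfc7_al.FewResidueRoots
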